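import Pool.Agent.Lib.H62u.HE.HE_Top
set_option autoImplicit false
namespace H62
theorem HE_chk0_1 : go0 (lin2 (nat_lit 1048576) (nat_lit 304120) (nat_lit 798513)) 10 HE_c0.b C4.c1 HE_c2.b HE_root.b = true := by decide +kernel
end H62
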