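import Pool.Agent.Lib.H62u.HE.HE_Chk0_0
import Pool.Agent.Lib.H62u.HE.HE_Chk0_1
import Pool.Agent.Lib.H62u.HE.HE_Chk0_2
import Pool.Agent.Lib.H62u.HE.HE_Chk1_0
import Pool.Agent.Lib.H62u.HE.HE_Chk1_1
import Pool.Agent.Lib.H62u.HE.HE_Chk1_2
import Pool.Agent.Lib.H62u.HE.HE_Chk2_0
import Pool.Agent.Lib.H62u.HE.HE_Chk2_1
import Pool.Agent.Lib.H62u.HE.HE_Chk2_2
import Pool.Agent.Lib.H62u.HE.HE_ChkB_0
import Pool.Agent.Lib.H62u.HE.HE_ChkB_1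
import Pool.Agent.Lib.H62u.HE.HE_ChkB_2
set_option autoImplicit false
namespace H62
theorem HE_chk1 : go1 (lin1 (nat_lit 1048576) (nat_lit 304120)) 11 HE_c1 C4.c2 HE_c0 = true :=
  go1_split2 (n := 10) HE_c1 HE_c0 HE_chk1_0 HE_chk1_1 HE_chk1_2
theorem HE_chk2 : go2 (lin2 (nat_lit 1048576) (nat_lit 304120) (nat_lit 1482718)) 11 HE_c2 C4.c3 HE_c1 HE_root = true :=
  go2_split3 (n := 10) HE_c2 HE_c1 HE_root HE_chk2_0 HE_chk2_1 HE_chk2_2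
theorem HE_chk0 : go0 (lin2 (nat_lit 1048576) (nat_lit 304120) (nat_lit 798513)) 11 HE_c0 C4.c0 HE_c2 HE_root = true :=
  go0_split0 (n := 10) HE_c0 HE_c2 HE_root HE_chk0_0 HE_chk0_1 HE_chk0_2
theorem HE_chkB : blk (qmean (nat_lit 13)) 12 HE_root = true :=
  blk_split (n := 11) HE_root HE_chkB_0 HE_chkB_1 HE_chkB_2
end H62
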