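import Pool.Agent.Lib.H62u.HE.HE_0
import Pool.Agent.Lib.H62u.HE.HE_1
import Pool.Agent.Lib.H62u.HE.HE_2
import Pool.Agent.Lib.H62u.HE.HE_3
import Pool.Agent.Lib.H62u.HE.HE_4
import Pool.Agent.Lib.H62u.HE.HE_5
import Pool.Agent.Lib.H62u.HE.HE_6
import Pool.Agent.Lib.H62u.HE.HE_7
import Pool.Agent.Lib.H62u.HE.HE_8
import Pool.Agent.Lib.H62u.HE.HE_9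
import Pool.Agent.Lib.H62u.HE.HE_10
import Pool.Agent.Lib.H62u.HE.HE_11
import Pool.Agent.Lib.H62u.HE.HE_12
import Pool.Agent.Lib.H62u.HE.HE_13
import Pool.Agent.Lib.H62u.HE.HE_14
import Pool.Agent.Lib.H62u.HE.HE_15
import Pool.Agent.Lib.H62u.HE.HE_16
import Pool.Agent.Lib.H62u.HE.HE_17
import Pool.Agent.Lib.H62u.HE.HE_18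
import Pool.Agent.Lib.H62u.HE.HE_19
import Pool.Agent.Lib.H62u.HE.HE_20
import Pool.Agent.Lib.H62u.HE.HE_21
import Pool.Agent.Lib.H62u.HE.HE_22
import Pool.Agent.Lib.H62u.HE.HE_23
import Pool.Agent.Lib.H62u.HE.HE_24
import Pool.Agent.Lib.H62u.HE.HE_25
import Pool.Agent.Lib.H62u.HE.HE_26
set_option autoImplicit false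
set_option linter.all false
namespace H62
noncomputable def HE_c0 : (Tri (Tri (Tri (Tri (Tri (Tri (Tri (Tri (Tri (Tri (Tri B0))))))))))) := ⟨⟨⟨⟨⟨
HE_0,HE_243,HE_486⟩,⟨
HE_81,HE_324,HE_567⟩,⟨
HE_162,HE_405,HE_648⟩⟩,⟨⟨
HE_27,HE_270,HE_513⟩,⟨
HE_108,HE_351,HE_594⟩,⟨
HE_189,HE_432,HE_675⟩⟩,⟨⟨
HE_54,HE_297,HE_540⟩,⟨
HE_135,HE_378,HE_621⟩,⟨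
HE_216,HE_459,HE_702⟩⟩⟩,⟨⟨⟨
HE_9,HE_252,HE_495⟩,⟨
HE_90,HE_333,HE_576⟩,⟨
HE_171,HE_414,HE_657⟩⟩,⟨⟨
HE_36,HE_279,HE_522⟩,⟨
HE_117,HE_360,HE_603⟩,⟨
HE_198,HE_441,HE_684⟩⟩,⟨⟨
HE_63,HE_306,HE_549⟩,⟨
HE_144,HE_387,HE_630⟩,⟨
HE_225,HE_468,HE_711⟩⟩⟩,⟨⟨⟨
HE_18,HE_261,HE_504⟩,⟨
HE_99,HE_342,HE_585⟩,⟨
HE_180,HE_423,HE_666⟩⟩,⟨⟨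
HE_45,HE_288,HE_531⟩,⟨
HE_126,HE_369,HE_612⟩,⟨
HE_207,HE_450,HE_693⟩⟩,⟨⟨
HE_72,HE_315,HE_558⟩,⟨
HE_153,HE_396,HE_639⟩,⟨
HE_234,HE_477,HE_720⟩⟩⟩⟩,⟨⟨⟨⟨
HE_3,HE_246,HE_489⟩,⟨
HE_84,HE_327,HE_570⟩,⟨
HE_165,HE_408,HE_651⟩⟩,⟨⟨
HE_30,HE_273,HE_516⟩,⟨
HE_111,HE_354,HE_597⟩,⟨
HE_192,HE_435,HE_678⟩⟩,⟨⟨
HE_57,HE_300,HE_543⟩,⟨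
HE_138,HE_381,HE_624⟩,⟨
HE_219,HE_462,HE_705⟩⟩⟩,⟨⟨⟨
HE_12,HE_255,HE_498⟩,⟨
HE_93,HE_336,HE_579⟩,⟨
HE_174,HE_417,HE_660⟩⟩,⟨⟨
HE_39,HE_282,HE_525⟩,⟨
HE_120,HE_363,HE_606⟩,⟨
HE_201,HE_444,HE_687⟩⟩,⟨⟨
HE_66,HE_309,HE_552⟩,⟨
HE_147,HE_390,HE_633⟩,⟨
HE_228,HE_471,HE_714⟩⟩⟩,⟨⟨⟨
HE_21,HE_264,HE_507⟩,⟨
HE_102,HE_345,HE_588⟩,⟨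
HE_183,HE_426,HE_669⟩⟩,⟨⟨
HE_48,HE_291,HE_534⟩,⟨
HE_129,HE_372,HE_615⟩,⟨
HE_210,HE_453,HE_696⟩⟩,⟨⟨
HE_75,HE_318,HE_561⟩,⟨
HE_156,HE_399,HE_642⟩,⟨
HE_237,HE_480,HE_723⟩⟩⟩⟩,⟨⟨⟨⟨
HE_6,HE_249,HE_492⟩,⟨
HE_87,HE_330,HE_573⟩,⟨
HE_168,HE_411,HE_654⟩⟩,⟨⟨
HE_33,HE_276,HE_519⟩,⟨
HE_114,HE_357,HE_600⟩,⟨
HE_195,HE_438,HE_681⟩⟩,⟨⟨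
HE_60,HE_303,HE_546⟩,⟨
HE_141,HE_384,HE_627⟩,⟨
HE_222,HE_465,HE_708⟩⟩⟩,⟨⟨⟨
HE_15,HE_258,HE_501⟩,⟨
HE_96,HE_339,HE_582⟩,⟨
HE_177,HE_420,HE_663⟩⟩,⟨⟨
HE_42,HE_285,HE_528⟩,⟨
HE_123,HE_366,HE_609⟩,⟨
HE_204,HE_447,HE_690⟩⟩,⟨⟨
HE_69,HE_312,HE_555⟩,⟨
HE_150,HE_393,HE_636⟩,⟨
HE_231,HE_474,HE_717⟩⟩⟩,⟨⟨⟨
HE_24,HE_267,HE_510⟩,⟨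
HE_105,HE_348,HE_591⟩,⟨
HE_186,HE_429,HE_672⟩⟩,⟨⟨
HE_51,HE_294,HE_537⟩,⟨
HE_132,HE_375,HE_618⟩,⟨
HE_213,HE_456,HE_699⟩⟩,⟨⟨
HE_78,HE_321,HE_564⟩,⟨
HE_159,HE_402,HE_645⟩,⟨
HE_240,HE_483,HE_726⟩⟩⟩⟩⟩
noncomputable def HE_c1 : (Tri (Tri (Tri (Tri (Tri (Tri (Tri (Tri (Tri (Tri (Tri B0))))))))))) := ⟨⟨⟨⟨⟨
HE_1,HE_244,HE_487⟩,⟨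
HE_82,HE_325,HE_568⟩,⟨
HE_163,HE_406,HE_649⟩⟩,⟨⟨
HE_28,HE_271,HE_514⟩,⟨
HE_109,HE_352,HE_595⟩,⟨
HE_190,HE_433,HE_676⟩⟩,⟨⟨
HE_55,HE_298,HE_541⟩,⟨
HE_136,HE_379,HE_622⟩,⟨
HE_217,HE_460,HE_703⟩⟩⟩,⟨⟨⟨
HE_10,HE_253,HE_496⟩,⟨
HE_91,HE_334,HE_577⟩,⟨
HE_172,HE_415,HE_658⟩⟩,⟨⟨
HE_37,HE_280,HE_523⟩,⟨
HE_118,HE_361,HE_604⟩,⟨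
HE_199,HE_442,HE_685⟩⟩,⟨⟨
HE_64,HE_307,HE_550⟩,⟨
HE_145,HE_388,HE_631⟩,⟨
HE_226,HE_469,HE_712⟩⟩⟩,⟨⟨⟨
HE_19,HE_262,HE_505⟩,⟨
HE_100,HE_343,HE_586⟩,⟨
HE_181,HE_424,HE_667⟩⟩,⟨⟨
HE_46,HE_289,HE_532⟩,⟨
HE_127,HE_370,HE_613⟩,⟨
HE_208,HE_451,HE_694⟩⟩,⟨⟨
HE_73,HE_316,HE_559⟩,⟨
HE_154,HE_397,HE_640⟩,⟨
HE_235,HE_478,HE_721⟩⟩⟩⟩,⟨⟨⟨⟨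
HE_4,HE_247,HE_490⟩,⟨
HE_85,HE_328,HE_571⟩,⟨
HE_166,HE_409,HE_652⟩⟩,⟨⟨
HE_31,HE_274,HE_517⟩,⟨
HE_112,HE_355,HE_598⟩,⟨
HE_193,HE_436,HE_679⟩⟩,⟨⟨
HE_58,HE_301,HE_544⟩,⟨
HE_139,HE_382,HE_625⟩,⟨
HE_220,HE_463,HE_706⟩⟩⟩,⟨⟨⟨
HE_13,HE_256,HE_499⟩,⟨
HE_94,HE_337,HE_580⟩,⟨
HE_175,HE_418,HE_661⟩⟩,⟨⟨
HE_40,HE_283,HE_526⟩,⟨
HE_121,HE_364,HE_607⟩,⟨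
HE_202,HE_445,HE_688⟩⟩,⟨⟨
HE_67,HE_310,HE_553⟩,⟨
HE_148,HE_391,HE_634⟩,⟨
HE_229,HE_472,HE_715⟩⟩⟩,⟨⟨⟨
HE_22,HE_265,HE_508⟩,⟨
HE_103,HE_346,HE_589⟩,⟨
HE_184,HE_427,HE_670⟩⟩,⟨⟨
HE_49,HE_292,HE_535⟩,⟨
HE_130,HE_373,HE_616⟩,⟨
HE_211,HE_454,HE_697⟩⟩,⟨⟨
HE_76,HE_319,HE_562⟩,⟨
HE_157,HE_400,HE_643⟩,⟨
HE_238,HE_481,HE_724⟩⟩⟩⟩,⟨⟨⟨⟨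
HE_7,HE_250,HE_493⟩,⟨
HE_88,HE_331,HE_574⟩,⟨
HE_169,HE_412,HE_655⟩⟩,⟨⟨
HE_34,HE_277,HE_520⟩,⟨
HE_115,HE_358,HE_601⟩,⟨
HE_196,HE_439,HE_682⟩⟩,⟨⟨
HE_61,HE_304,HE_547⟩,⟨
HE_142,HE_385,HE_628⟩,⟨
HE_223,HE_466,HE_709⟩⟩⟩,⟨⟨⟨
HE_16,HE_259,HE_502⟩,⟨
HE_97,HE_340,HE_583⟩,⟨
HE_178,HE_421,HE_664⟩⟩,⟨⟨
HE_43,HE_286,HE_529⟩,⟨
HE_124,HE_367,HE_610⟩,⟨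
HE_205,HE_448,HE_691⟩⟩,⟨⟨
HE_70,HE_313,HE_556⟩,⟨
HE_151,HE_394,HE_637⟩,⟨
HE_232,HE_475,HE_718⟩⟩⟩,⟨⟨⟨
HE_25,HE_268,HE_511⟩,⟨
HE_106,HE_349,HE_592⟩,⟨
HE_187,HE_430,HE_673⟩⟩,⟨⟨
HE_52,HE_295,HE_538⟩,⟨
HE_133,HE_376,HE_619⟩,⟨
HE_214,HE_457,HE_700⟩⟩,⟨⟨
HE_79,HE_322,HE_565⟩,⟨
HE_160,HE_403,HE_646⟩,⟨
HE_241,HE_484,HE_727⟩⟩⟩⟩⟩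
noncomputable def HE_c2 : (Tri (Tri (Tri (Tri (Tri (Tri (Tri (Tri (Tri (Tri (Tri B0))))))))))) := ⟨⟨⟨⟨⟨
HE_2,HE_245,HE_488⟩,⟨
HE_83,HE_326,HE_569⟩,⟨
HE_164,HE_407,HE_650⟩⟩,⟨⟨
HE_29,HE_272,HE_515⟩,⟨
HE_110,HE_353,HE_596⟩,⟨
HE_191,HE_434,HE_677⟩⟩,⟨⟨
HE_56,HE_299,HE_542⟩,⟨
HE_137,HE_380,HE_623⟩,⟨
HE_218,HE_461,HE_704⟩⟩⟩,⟨⟨⟨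
HE_11,HE_254,HE_497⟩,⟨
HE_92,HE_335,HE_578⟩,⟨
HE_173,HE_416,HE_659⟩⟩,⟨⟨
HE_38,HE_281,HE_524⟩,⟨
HE_119,HE_362,HE_605⟩,⟨
HE_200,HE_443,HE_686⟩⟩,⟨⟨
HE_65,HE_308,HE_551⟩,⟨
HE_146,HE_389,HE_632⟩,⟨
HE_227,HE_470,HE_713⟩⟩⟩,⟨⟨⟨
HE_20,HE_263,HE_506⟩,⟨
HE_101,HE_344,HE_587⟩,⟨
HE_182,HE_425,HE_668⟩⟩,⟨⟨
HE_47,HE_290,HE_533⟩,⟨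
HE_128,HE_371,HE_614⟩,⟨
HE_209,HE_452,HE_695⟩⟩,⟨⟨
HE_74,HE_317,HE_560⟩,⟨
HE_155,HE_398,HE_641⟩,⟨
HE_236,HE_479,HE_722⟩⟩⟩⟩,⟨⟨⟨⟨
HE_5,HE_248,HE_491⟩,⟨
HE_86,HE_329,HE_572⟩,⟨
HE_167,HE_410,HE_653⟩⟩,⟨⟨
HE_32,HE_275,HE_518⟩,⟨
HE_113,HE_356,HE_599⟩,⟨
HE_194,HE_437,HE_680⟩⟩,⟨⟨
HE_59,HE_302,HE_545⟩,⟨
HE_140,HE_383,HE_626⟩,⟨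
HE_221,HE_464,HE_707⟩⟩⟩,⟨⟨⟨
HE_14,HE_257,HE_500⟩,⟨
HE_95,HE_338,HE_581⟩,⟨
HE_176,HE_419,HE_662⟩⟩,⟨⟨
HE_41,HE_284,HE_527⟩,⟨
HE_122,HE_365,HE_608⟩,⟨
HE_203,HE_446,HE_689⟩⟩,⟨⟨
HE_68,HE_311,HE_554⟩,⟨
HE_149,HE_392,HE_635⟩,⟨
HE_230,HE_473,HE_716⟩⟩⟩,⟨⟨⟨
HE_23,HE_266,HE_509⟩,⟨
HE_104,HE_347,HE_590⟩,⟨
HE_185,HE_428,HE_671⟩⟩,⟨⟨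
HE_50,HE_293,HE_536⟩,⟨
HE_131,HE_374,HE_617⟩,⟨
HE_212,HE_455,HE_698⟩⟩,⟨⟨
HE_77,HE_320,HE_563⟩,⟨
HE_158,HE_401,HE_644⟩,⟨
HE_239,HE_482,HE_725⟩⟩⟩⟩,⟨⟨⟨⟨
HE_8,HE_251,HE_494⟩,⟨
HE_89,HE_332,HE_575⟩,⟨
HE_170,HE_413,HE_656⟩⟩,⟨⟨
HE_35,HE_278,HE_521⟩,⟨
HE_116,HE_359,HE_602⟩,⟨
HE_197,HE_440,HE_683⟩⟩,⟨⟨
HE_62,HE_305,HE_548⟩,⟨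
HE_143,HE_386,HE_629⟩,⟨
HE_224,HE_467,HE_710⟩⟩⟩,⟨⟨⟨
HE_17,HE_260,HE_503⟩,⟨
HE_98,HE_341,HE_584⟩,⟨
HE_179,HE_422,HE_665⟩⟩,⟨⟨
HE_44,HE_287,HE_530⟩,⟨
HE_125,HE_368,HE_611⟩,⟨
HE_206,HE_449,HE_692⟩⟩,⟨⟨
HE_71,HE_314,HE_557⟩,⟨
HE_152,HE_395,HE_638⟩,⟨
HE_233,HE_476,HE_719⟩⟩⟩,⟨⟨⟨
HE_26,HE_269,HE_512⟩,⟨
HE_107,HE_350,HE_593⟩,⟨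
HE_188,HE_431,HE_674⟩⟩,⟨⟨
HE_53,HE_296,HE_539⟩,⟨
HE_134,HE_377,HE_620⟩,⟨
HE_215,HE_458,HE_701⟩⟩,⟨⟨
HE_80,HE_323,HE_566⟩,⟨
HE_161,HE_404,HE_647⟩,⟨
HE_242,HE_485,HE_728⟩⟩⟩⟩⟩
noncomputable def HE_root : (Tri (Tri (Tri (Tri (Tri (Tri (Tri (Tri (Tri (Tri (Tri (Tri B0)))))))))))) := ⟨HE_c0,HE_c1,HE_c2⟩
end H62
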